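import Mathlib

set_option autoImplicit false

namespace Pool.Agent.P.MP_7eb8f3_nt

lemma shift {a c d : ℤ} (ha : 0 < a) (hc : 0 < c) (hd : 0 < d) (hne : c ≠ d)
    (h : a * d + 1 ∣ a * c + 1) : ∃ k : ℤ, 0 < k ∧ c = d + k * (a * d + 1) := by
  have h1 : a * d + 1 ∣ a * (c - d) := by
    have : a * (c - d) = (a * c + 1) - (a * d + 1) := by ring
    rw [this]
    exact dvd_sub h dvd_rfl
  have hco : IsCoprime (a * d + 1) a := ⟨1, -d, by ring⟩
  obtain ⟨k, hk⟩ := hco.dvd_of_dvd_mul_left h1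
  refine ⟨k, ?_, by linarith⟩
  by_contra hk0
  push Not at hk0
  have hk1 : k ≠ 0 := by
    rintro rfl
    apply hne
    linarith
  have hk2 : k ≤ -1 := by omega
  have hQ : 0 < a * d + 1 := by positivity
  have : (a * d + 1) * k ≤ (a * d + 1) * (-1) := mul_le_mul_of_nonneg_left hk2 hQ.le
  nlinarith [mul_le_mul_of_nonneg_right (show (1 : ℤ) ≤ a by omega) hd.le]

lemma shift_gt {a c d : ℤ} (ha : 0 < a) (hc : 0 < c) (hd : 0 < d) (hne : c ≠ d)
    (h : a * d + 1 ∣ a * c + 1) : a * d + 1 < c := by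
  obtain ⟨k, hk, rfl⟩ := shift ha hc hd hne h
  have hQ : 0 < a * d + 1 := by positivity
  nlinarith [mul_le_mul_of_nonneg_right (show (1 : ℤ) ≤ k by omega) hQ.le]

lemma tri {a b c : ℤ} (ha : 0 < a) (hb : 0 < b) (hab : a ≠ b)
    (h1 : a * b + 1 ∣ a * c + 1) (h2 : a * b + 1 ∣ b * c + 1) : False := by
  have h3 : a * b + 1 ∣ c * (a - b) := by
    have : c * (a - b) = (a * c + 1) - (b * c + 1) := by ring
    rw [this]
    exact dvd_sub h1 h2
  obtain ⟨m, hm⟩ := h1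
  have hco : IsCoprime (a * b + 1) c := ⟨m, -a, by linarith⟩
  have h4 := hco.dvd_of_dvd_mul_left h3
  have h5 : a - b = 0 := by
    apply Int.eq_zero_of_abs_lt_dvd h4
    rw [abs_lt]
    constructor
    · nlinarith [mul_le_mul_of_nonneg_right (show (1 : ℤ) ≤ a by omega) hb.le]
    · nlinarith [mul_le_mul_of_nonneg_left (show (1 : ℤ) ≤ b by omega) ha.le]
  exact hab (by linarith)

lemma cross {a b d : ℤ} (ha : 0 < a) (hb : 0 < b) (hd : 0 < d) (hab : a ≠ b) (had : a ≠ d)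
    (h1 : a * d + 1 ∣ b * d + 1) (h2 : a * b + 1 ∣ b * d + 1) : False := by
  have e1 := shift_gt (a := d) (c := b) (d := a) hd hb ha hab.symm
    (by rw [mul_comm d a, mul_comm d b]; exact h1)
  have e2 := shift_gt (a := b) (c := d) (d := a) hb hd ha had.symm
    (by rw [mul_comm b a]; exact h2)
  nlinarith [mul_le_mul_of_nonneg_left (show (1 : ℤ) ≤ a by omega) hd.le,
    mul_le_mul_of_nonneg_left (show (1 : ℤ) ≤ a by omega) hb.le]

lemma eqpair {a b c d : ℤ} (ha : 0 < a) (hb : 0 < b) (hc : 0 < c) (hd : 0 < d) (hcd : c ≠ d)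
    (h0 : a * d + 1 = b * c + 1) (h1 : a * d + 1 ∣ a * c + 1) : False := by
  have e1 := shift_gt ha hc hd hcd h1
  nlinarith [mul_le_mul_of_nonneg_right (show (1 : ℤ) ≤ b by omega) hc.le]

lemma keyK {a b c d E q : ℤ} {m n : ℕ} (hq1 : 1 < q) (ha : 0 < a) (hb : 0 < b)
    (hc : 0 < c) (hd : 0 < d) (hab : a ≠ b) (hcd : c ≠ d) (had : a ≠ d)
    (h1 : a * c + 1 = (a * d + 1) * E) (h2 : b * d + 1 = (a * d + 1) * (E * q ^ m))
    (h3 : b * c + 1 = (a * d + 1) * q ^ n) (h4 : E ∣ a * b + 1) (h5 : E ∣ c * d + 1) : False := by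
  obtain ⟨k, hk, hck⟩ := shift ha hc hd hcd ⟨E, h1⟩
  obtain ⟨l, hl, hbl⟩ := shift (a := d) (c := b) (d := a) hd hb ha hab.symm
    ⟨E * q ^ m, by rw [mul_comm d a, mul_comm d b]; exact h2⟩
  have hQ : 0 < a * d + 1 := by positivity
  have hE : E = 1 + a * k := by
    apply mul_left_cancel₀ hQ.ne'
    rw [← h1, hck]; ring
  have hB : E * q ^ m = 1 + d * l := by
    apply mul_left_cancel₀ hQ.ne'
    rw [← h2, hbl]; ring
  have hN : q ^ n = E * (E * q ^ m) + k * l := by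
    apply mul_left_cancel₀ hQ.ne'
    rw [← h3, hB, hE, hck, hbl]; ring
  have hE1 : 1 < E := by rw [hE]; nlinarith [mul_pos ha hk]
  have hD : 0 < q ^ m := by positivity
  have hmn : m ≤ n := by
    have : q ^ m < q ^ n := by
      rw [hN]
      nlinarith [mul_pos hk hl, mul_le_mul_of_nonneg_right (show (1 : ℤ) ≤ E * E by nlinarith) hD.le]
    exact ((pow_lt_pow_iff_right₀ hq1).mp this).le
  have hDkl : q ^ m ∣ k * l := by
    have : k * l = q ^ n - E * E * q ^ m := by rw [hN]; ring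
    rw [this]
    exact dvd_sub (pow_dvd_pow q hmn) (Dvd.intro_left _ rfl)
  have hcop : IsCoprime (q ^ m) l := ⟨E, -d, by linarith⟩
  have hDk : q ^ m ∣ k := hcop.dvd_of_dvd_mul_right hDkl
  have h6 : E ∣ 1 + a * l := by
    have : 1 + a * l = (a * b + 1) - a * a * q ^ m * E := by
      have : a * b + 1 = 1 + a * l + a * a * (1 + d * l) := by rw [hbl]; ring
      rw [this, ← hB]; ring
    rw [this]
    exact dvd_sub h4 (Dvd.intro_left _ rfl)
  have h7 : E ∣ a * (l - k) := by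
    have : a * (l - k) = (1 + a * l) - E := by rw [hE]; ring
    rw [this]
    exact dvd_sub h6 dvd_rfl
  have hcoE : IsCoprime E a := ⟨1, -k, by rw [hE]; ring⟩
  obtain ⟨j, hj⟩ := hcoE.dvd_of_dvd_mul_left h7
  have hkl : k ≤ l := by
    by_contra hlt
    push Not at hlt
    have hj0 : j ≤ -1 := by
      by_contra h
      push Not at h
      have : 0 ≤ E * j := mul_nonneg (by omega) (by omega)
      omega
    have : E * j ≤ E * (-1) := mul_le_mul_of_nonneg_left hj0 (by omega)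
    nlinarith [mul_le_mul_of_nonneg_right (show (1 : ℤ) ≤ a by omega) hk.le]
  have h8 : E ∣ 1 + d * k := by
    have : 1 + d * k = (c * d + 1) - d * d * E := by rw [hck, hE]; ring
    rw [this]
    exact dvd_sub h5 (Dvd.intro_left _ rfl)
  obtain ⟨w, hw⟩ := h8
  have hw1 : 0 < w := by
    by_contra h
    push Not at h
    have : E * w ≤ 0 := mul_nonpos_of_nonneg_of_nonpos (by omega) h
    nlinarith [mul_pos hd hk]
  have hw2 : w ≤ q ^ m := by
    have : E * w ≤ E * q ^ m := by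
      rw [← hw, hB]
      nlinarith [mul_le_mul_of_nonneg_left hkl hd.le]
    exact le_of_mul_le_mul_left this (by omega)
  have hw3 : q ^ m ∣ w - 1 := by
    obtain ⟨g, hg⟩ := hDk
    refine ⟨d * g - a * g * w, ?_⟩
    rw [hE, hg] at hw
    linear_combination (-1 : ℤ) * hw
  have hw4 : w - 1 = 0 := by
    apply Int.eq_zero_of_abs_lt_dvd hw3
    rw [abs_lt]
    constructor <;> omega
  have hw5 : w = 1 := by omega
  rw [hw5, hE] at hw
  apply had
  have : a * k = d * k := by linarith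
  exact mul_right_cancel₀ hk.ne' this

lemma val {p q s s' t t' : ℤ} {x y x' y' u v u' v' : ℕ} (hp : Prime p) (hpq : ¬ p ∣ q)
    (hs : s = p ^ x * q ^ y) (hs' : s' = p ^ x' * q ^ y') (ht : t = p ^ u * q ^ v)
    (ht' : t' = p ^ u' * q ^ v') (hR : s + s' - s * s' = t + t' - t * t')
    (h1 : x < x') (h2 : x < u) (h3 : x < u') : False := by
  have d1 : p ^ (x + 1) ∣ s' := hs' ▸ Dvd.dvd.mul_right (pow_dvd_pow p h1) _
  have d2 : p ^ (x + 1) ∣ t := ht ▸ Dvd.dvd.mul_right (pow_dvd_pow p h2) _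
  have d3 : p ^ (x + 1) ∣ t' := ht' ▸ Dvd.dvd.mul_right (pow_dvd_pow p h3) _
  have d4 : p ^ (x + 1) ∣ s := by
    have : s = t + t' - t * t' - s' + s * s' := by linarith
    rw [this]
    exact dvd_add (dvd_sub (dvd_sub (dvd_add d2 d3) (Dvd.dvd.mul_right d2 _)) d1)
      (Dvd.dvd.mul_left d1 _)
  rw [hs, pow_succ, mul_dvd_mul_iff_left (pow_ne_zero x hp.ne_zero)] at d4
  exact hpq (hp.dvd_of_dvd_pow d4)

lemma val2 {p q s t t' : ℤ} {x y u v u' v' : ℕ} (hp : Prime p) (hpq : ¬ p ∣ q)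
    (hs : s = p ^ x * q ^ y) (ht : t = p ^ u * q ^ v)
    (ht' : t' = p ^ u' * q ^ v') (hR : s + s - s * s = t + t' - t * t')
    (h1 : 1 ≤ x) (h2 : x < u) (h3 : x < u') : p ∣ 2 := by
  have d2 : p ^ (x + 1) ∣ t := ht ▸ Dvd.dvd.mul_right (pow_dvd_pow p h2) _
  have d3 : p ^ (x + 1) ∣ t' := ht' ▸ Dvd.dvd.mul_right (pow_dvd_pow p h3) _
  have d4 : p ^ (x + 1) ∣ p ^ x * (q ^ y * (2 - s)) := by
    have : p ^ x * (q ^ y * (2 - s)) = t + t' - t * t' := by rw [← hR, hs]; ring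
    rw [this]
    exact dvd_sub (dvd_add d2 d3) (Dvd.dvd.mul_right d2 _)
  rw [pow_succ, mul_dvd_mul_iff_left (pow_ne_zero x hp.ne_zero)] at d4
  have d5 : p ∣ 2 - s := by
    rcases hp.dvd_or_dvd d4 with h | h
    · exact absurd (hp.dvd_of_dvd_pow h) hpq
    · exact h
  have d6 : p ∣ s := hs ▸ Dvd.dvd.mul_right (dvd_pow_self p (by omega)) _
  have := dvd_add d5 d6
  simpa using this

end Pool.Agent.P.MP_7eb8f3_nt
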