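import Mathlib

set_option autoImplicit false

namespace Pool.Agent.P.MP_7eb8f3_nt

/- The constraints on the exponents, for four distinct indices. -/
structure Con (α β : Fin 4 → Fin 4 → ℕ) : Prop where
  sa : ∀ i j, α i j = α j i
  sb : ∀ i j, β i j = β j i
  T : ∀ i j k, i ≠ j → i ≠ k → j ≠ k →
    ¬ (α i j ≤ α i k ∧ β i j ≤ β i k ∧ α i j ≤ α j k ∧ β i j ≤ β j k)
  X : ∀ i j l, i ≠ j → i ≠ l → j ≠ l →
    ¬ (α i l ≤ α j l ∧ β i l ≤ β j l ∧ α i j ≤ α j l ∧ β i j ≤ β j l)
  Va : ∀ i j k l, i ≠ j → i ≠ k → i ≠ l → j ≠ k → j ≠ l → k ≠ l →
    ¬ (α i j < α k l ∧ α i j < α i k ∧ α i j < α j l)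
  Vb : ∀ i j k l, i ≠ j → i ≠ k → i ≠ l → j ≠ k → j ≠ l → k ≠ l →
    ¬ (β i j < β k l ∧ β i j < β i k ∧ β i j < β j l)
  Ka : ∀ i j k l, i ≠ j → i ≠ k → i ≠ l → j ≠ k → j ≠ l → k ≠ l →
    ¬ (α i l ≤ α i k ∧ β i l = β i k ∧ α j l = α i k ∧ β i l ≤ β j l ∧ α j k = α i l ∧
      β i l ≤ β j k ∧ α i k ≤ α i j ∧ α i k ≤ α k l)
  Kb : ∀ i j k l, i ≠ j → i ≠ k → i ≠ l → j ≠ k → j ≠ l → k ≠ l →
    ¬ (β i l ≤ β i k ∧ α i l = α i k ∧ β j l = β i k ∧ α i l ≤ α j l ∧ β j k = β i l ∧
      α i l ≤ α j k ∧ β i k ≤ β i j ∧ β i k ≤ β k l)
  E : ∀ i j k l, i ≠ j → i ≠ k → i ≠ l → j ≠ k → j ≠ l → k ≠ l →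
    ¬ (α i l = α j k ∧ β i l = β j k ∧ α i l ≤ α i k ∧ β i l ≤ β i k)
  EE : ∀ i j k l, i ≠ j → i ≠ k → i ≠ l → j ≠ k → j ≠ l → k ≠ l →
    ¬ (α i l = α j k ∧ β i l = β j k ∧ 1 ≤ α i l ∧ 1 ≤ β i l ∧ α i l < α i j ∧ α i l < α k l ∧
      β i l < β i k ∧ β i l < β j l)





variable {α β : Fin 4 → Fin 4 → ℕ}

lemma types (sa : ∀ i j, α i j = α j i)
    (Va : ∀ i j k l, i ≠ j → i ≠ k → i ≠ l → j ≠ k → j ≠ l → k ≠ l →
      ¬ (α i j < α k l ∧ α i j < α i k ∧ α i j < α j l)) :
    ∃ x : ℕ, ((x ≤ α 0 1 ∧ x ≤ α 2 3) ∨ (x ≤ α 0 2 ∧ x ≤ α 1 3) ∨ (x ≤ α 0 3 ∧ x ≤ α 1 2)) ∧
      (((α 0 1 = x ∧ x ≤ α 2 3) ∨ (α 2 3 = x ∧ x ≤ α 0 1)) ∨ (α 0 1 = α 2 3 ∧ α 0 1 < x)) ∧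
      (((α 0 2 = x ∧ x ≤ α 1 3) ∨ (α 1 3 = x ∧ x ≤ α 0 2)) ∨ (α 0 2 = α 1 3 ∧ α 0 2 < x)) ∧
      (((α 0 3 = x ∧ x ≤ α 1 2) ∨ (α 1 2 = x ∧ x ≤ α 0 3)) ∨ (α 0 3 = α 1 2 ∧ α 0 3 < x)) := by
  have sa01 : α 1 0 = α 0 1 := sa 1 0
  have sa02 : α 2 0 = α 0 2 := sa 2 0
  have sa03 : α 3 0 = α 0 3 := sa 3 0
  have sa12 : α 2 1 = α 1 2 := sa 2 1
  have sa13 : α 3 1 = α 1 3 := sa 3 1
  have sa23 : α 3 2 = α 2 3 := sa 3 2
  obtain ⟨x, hx⟩ : ∃ x : ℕ, x = max (max (min (α 0 1) (α 2 3)) (min (α 0 2) (α 1 3))) (min (α 0 3) (α 1 2)) := ⟨_, rfl⟩
  have exx : (x ≤ α 0 1 ∧ x ≤ α 2 3) ∨ (x ≤ α 0 2 ∧ x ≤ α 1 3) ∨ (x ≤ α 0 3 ∧ x ≤ α 1 2) := by omega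
  have le : (α 0 1 ≤ x ∨ α 2 3 ≤ x) ∧ (α 0 2 ≤ x ∨ α 1 3 ≤ x) ∧ (α 0 3 ≤ x ∨ α 1 2 ≤ x) := by omega
  clear hx
  obtain ⟨le0, le1, le2⟩ := le
  refine ⟨x, exx, ?_, ?_, ?_⟩
  · clear le1 le2
    have := Va 0 1 2 3 (by decide) (by decide) (by decide) (by decide) (by decide) (by decide)
    have := Va 0 1 3 2 (by decide) (by decide) (by decide) (by decide) (by decide) (by decide)
    have := Va 2 3 0 1 (by decide) (by decide) (by decide) (by decide) (by decide) (by decide)
    have := Va 2 3 1 0 (by decide) (by decide) (by decide) (by decide) (by decide) (by decide)
    rcases exx with h | h | h <;> omega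
  · clear le0 le2
    have := Va 0 2 1 3 (by decide) (by decide) (by decide) (by decide) (by decide) (by decide)
    have := Va 0 2 3 1 (by decide) (by decide) (by decide) (by decide) (by decide) (by decide)
    have := Va 1 3 0 2 (by decide) (by decide) (by decide) (by decide) (by decide) (by decide)
    have := Va 1 3 2 0 (by decide) (by decide) (by decide) (by decide) (by decide) (by decide)
    rcases exx with h | h | h <;> omega
  · clear le0 le1
    have := Va 0 3 1 2 (by decide) (by decide) (by decide) (by decide) (by decide) (by decide)
    have := Va 0 3 2 1 (by decide) (by decide) (by decide) (by decide) (by decide) (by decide)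
    have := Va 1 2 0 3 (by decide) (by decide) (by decide) (by decide) (by decide) (by decide)
    have := Va 1 2 3 0 (by decide) (by decide) (by decide) (by decide) (by decide) (by decide)
    rcases exx with h | h | h <;> omega

lemma Con.false (C : Con α β) : False := by
  have sa01 : α 1 0 = α 0 1 := C.sa 1 0
  have sa02 : α 2 0 = α 0 2 := C.sa 2 0
  have sa03 : α 3 0 = α 0 3 := C.sa 3 0
  have sa12 : α 2 1 = α 1 2 := C.sa 2 1
  have sa13 : α 3 1 = α 1 3 := C.sa 3 1
  have sa23 : α 3 2 = α 2 3 := C.sa 3 2
  have sb01 : β 1 0 = β 0 1 := C.sb 1 0
  have sb02 : β 2 0 = β 0 2 := C.sb 2 0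
  have sb03 : β 3 0 = β 0 3 := C.sb 3 0
  have sb12 : β 2 1 = β 1 2 := C.sb 2 1
  have sb13 : β 3 1 = β 1 3 := C.sb 3 1
  have sb23 : β 3 2 = β 2 3 := C.sb 3 2
  obtain ⟨x, exx, tyx0, tyx1, tyx2⟩ := types C.sa C.Va
  obtain ⟨y, exy, tyy0, tyy1, tyy2⟩ := types C.sb C.Vb
  rcases tyx0 with p0 | p0 <;> rcases tyx1 with p1 | p1 <;> rcases tyx2 with p2 | p2 <;>
    rcases tyy0 with q0 | q0 <;> rcases tyy1 with q1 | q1 <;> rcases tyy2 with q2 | q2
  · clear exx exy
    rcases p0 with p0 | p0 <;>
      rcases q0 with q0 | q0 <;>
      rcases p1 with p1 | p1 <;>
      rcases q1 with q1 | q1 <;>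
      rcases p2 with p2 | p2 <;>
      rcases q2 with q2 | q2
    all_goals
      first
        | exact C.T 0 1 2 (by decide) (by decide) (by decide) (by omega)
        | exact C.T 0 1 3 (by decide) (by decide) (by decide) (by omega)
        | exact C.T 0 2 1 (by decide) (by decide) (by decide) (by omega)
        | exact C.T 0 2 3 (by decide) (by decide) (by decide) (by omega)
        | exact C.T 0 3 1 (by decide) (by decide) (by decide) (by omega)
        | exact C.T 0 3 2 (by decide) (by decide) (by decide) (by omega)
        | exact C.T 1 2 0 (by decide) (by decide) (by decide) (by omega)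
        | exact C.T 1 2 3 (by decide) (by decide) (by decide) (by omega)
        | exact C.T 1 3 0 (by decide) (by decide) (by decide) (by omega)
        | exact C.T 1 3 2 (by decide) (by decide) (by decide) (by omega)
        | exact C.T 2 3 0 (by decide) (by decide) (by decide) (by omega)
        | exact C.T 2 3 1 (by decide) (by decide) (by decide) (by omega)
        | (have := C.T 0 1 2 (by decide) (by decide) (by decide)
           have := C.T 0 2 1 (by decide) (by decide) (by decide)
           have := C.T 1 2 0 (by decide) (by decide) (by decide)
           omega)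
        | (have := C.T 0 1 3 (by decide) (by decide) (by decide)
           have := C.T 0 3 1 (by decide) (by decide) (by decide)
           have := C.T 1 3 0 (by decide) (by decide) (by decide)
           omega)
        | (have := C.T 0 2 3 (by decide) (by decide) (by decide)
           have := C.T 0 3 2 (by decide) (by decide) (by decide)
           have := C.T 2 3 0 (by decide) (by decide) (by decide)
           omega)
        | (have := C.T 1 2 3 (by decide) (by decide) (by decide)
           have := C.T 1 3 2 (by decide) (by decide) (by decide)
           have := C.T 2 3 1 (by decide) (by decide) (by decide)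
           omega)
  · clear exx exy
    rcases p0 with p0 | p0 <;>
      rcases q0 with q0 | q0 <;>
      rcases p1 with p1 | p1 <;>
      rcases q1 with q1 | q1 <;>
      rcases p2 with p2 | p2
    all_goals
      first
        | exact C.T 0 3 1 (by decide) (by decide) (by decide) (by omega)
        | exact C.T 1 2 0 (by decide) (by decide) (by decide) (by omega)
  · clear exx exy
    rcases p0 with p0 | p0 <;>
      rcases q0 with q0 | q0 <;>
      rcases p1 with p1 | p1 <;>
      rcases p2 with p2 | p2 <;>
      rcases q2 with q2 | q2
    all_goals
      first
        | exact C.T 0 2 1 (by decide) (by decide) (by decide) (by omega)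
        | exact C.T 1 3 0 (by decide) (by decide) (by decide) (by omega)
  · clear exx exy
    rcases p0 with p0 | p0 <;>
      rcases q0 with q0 | q0 <;>
      rcases p1 with p1 | p1 <;>
      rcases p2 with p2 | p2 <;>
      rcases le_total (β 0 2) (β 0 3) with r | r
    all_goals
      first
        | exact C.Kb 0 1 2 3 (by decide) (by decide) (by decide) (by decide) (by decide) (by decide) (by omega)
        | exact C.Kb 0 1 3 2 (by decide) (by decide) (by decide) (by decide) (by decide) (by decide) (by omega)
        | exact C.Kb 1 0 2 3 (by decide) (by decide) (by decide) (by decide) (by decide) (by decide) (by omega)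
        | exact C.Kb 1 0 3 2 (by decide) (by decide) (by decide) (by decide) (by decide) (by decide) (by omega)
        | exact C.Kb 2 3 0 1 (by decide) (by decide) (by decide) (by decide) (by decide) (by decide) (by omega)
        | exact C.Kb 2 3 1 0 (by decide) (by decide) (by decide) (by decide) (by decide) (by decide) (by omega)
        | exact C.Kb 3 2 0 1 (by decide) (by decide) (by decide) (by decide) (by decide) (by decide) (by omega)
        | exact C.Kb 3 2 1 0 (by decide) (by decide) (by decide) (by decide) (by decide) (by decide) (by omega)
  · clear exx exy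
    rcases p0 with p0 | p0 <;>
      rcases p1 with p1 | p1 <;>
      rcases q1 with q1 | q1 <;>
      rcases p2 with p2 | p2 <;>
      rcases q2 with q2 | q2
    all_goals
      first
        | exact C.T 0 1 2 (by decide) (by decide) (by decide) (by omega)
        | exact C.T 2 3 0 (by decide) (by decide) (by decide) (by omega)
  · clear exx exy
    rcases p0 with p0 | p0 <;>
      rcases p1 with p1 | p1 <;>
      rcases q1 with q1 | q1 <;>
      rcases p2 with p2 | p2 <;>
      rcases le_total (β 0 1) (β 0 3) with r | r
    all_goals
      first
        | exact C.Kb 0 2 1 3 (by decide) (by decide) (by decide) (by decide) (by decide) (by decide) (by omega)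
        | exact C.Kb 0 2 3 1 (by decide) (by decide) (by decide) (by decide) (by decide) (by decide) (by omega)
        | exact C.Kb 1 3 0 2 (by decide) (by decide) (by decide) (by decide) (by decide) (by decide) (by omega)
        | exact C.Kb 1 3 2 0 (by decide) (by decide) (by decide) (by decide) (by decide) (by decide) (by omega)
        | exact C.Kb 2 0 1 3 (by decide) (by decide) (by decide) (by decide) (by decide) (by decide) (by omega)
        | exact C.Kb 2 0 3 1 (by decide) (by decide) (by decide) (by decide) (by decide) (by decide) (by omega)
        | exact C.Kb 3 1 0 2 (by decide) (by decide) (by decide) (by decide) (by decide) (by decide) (by omega)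
        | exact C.Kb 3 1 2 0 (by decide) (by decide) (by decide) (by decide) (by decide) (by decide) (by omega)
  · clear exx exy
    rcases p0 with p0 | p0 <;>
      rcases p1 with p1 | p1 <;>
      rcases p2 with p2 | p2 <;>
      rcases q2 with q2 | q2 <;>
      rcases le_total (β 0 1) (β 0 2) with r | r
    all_goals
      first
        | exact C.Kb 0 3 1 2 (by decide) (by decide) (by decide) (by decide) (by decide) (by decide) (by omega)
        | exact C.Kb 0 3 2 1 (by decide) (by decide) (by decide) (by decide) (by decide) (by decide) (by omega)
        | exact C.Kb 1 2 0 3 (by decide) (by decide) (by decide) (by decide) (by decide) (by decide) (by omega)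
        | exact C.Kb 1 2 3 0 (by decide) (by decide) (by decide) (by decide) (by decide) (by decide) (by omega)
        | exact C.Kb 2 1 0 3 (by decide) (by decide) (by decide) (by decide) (by decide) (by decide) (by omega)
        | exact C.Kb 2 1 3 0 (by decide) (by decide) (by decide) (by decide) (by decide) (by decide) (by omega)
        | exact C.Kb 3 0 1 2 (by decide) (by decide) (by decide) (by decide) (by decide) (by decide) (by omega)
        | exact C.Kb 3 0 2 1 (by decide) (by decide) (by decide) (by decide) (by decide) (by decide) (by omega)
  · clear exx p0 p1 p2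
    omega
  · clear exx exy
    rcases p0 with p0 | p0 <;>
      rcases q0 with q0 | q0 <;>
      rcases p1 with p1 | p1 <;>
      rcases q1 with q1 | q1 <;>
      rcases q2 with q2 | q2
    all_goals
      first
        | exact C.T 0 3 1 (by decide) (by decide) (by decide) (by omega)
        | exact C.T 1 2 0 (by decide) (by decide) (by decide) (by omega)
  · clear exx exy
    rcases p0 with p0 | p0 <;>
      rcases q0 with q0 | q0 <;>
      rcases p1 with p1 | p1 <;>
      rcases q1 with q1 | q1
    all_goals
      first
        | exact C.E 0 1 2 3 (by decide) (by decide) (by decide) (by decide) (by decide) (by decide) (by omega)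
  · clear exx exy
    rcases p0 with p0 | p0 <;>
      rcases q0 with q0 | q0 <;>
      rcases p1 with p1 | p1 <;>
      rcases q2 with q2 | q2
    all_goals
      first
        | exact C.X 0 2 3 (by decide) (by decide) (by decide) (by omega)
        | exact C.X 1 3 2 (by decide) (by decide) (by decide) (by omega)
        | exact C.X 2 0 1 (by decide) (by decide) (by decide) (by omega)
        | exact C.X 3 1 0 (by decide) (by decide) (by decide) (by omega)
  · clear exx exy
    rcases p0 with p0 | p0 <;>
      rcases q0 with q0 | q0 <;>
      rcases p1 with p1 | p1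
    all_goals
      first
        | exact C.E 0 2 1 3 (by decide) (by decide) (by decide) (by decide) (by decide) (by decide) (by omega)
  · clear exx exy
    rcases p0 with p0 | p0 <;>
      rcases p1 with p1 | p1 <;>
      rcases q1 with q1 | q1 <;>
      rcases q2 with q2 | q2
    all_goals
      first
        | exact C.X 0 1 3 (by decide) (by decide) (by decide) (by omega)
        | exact C.X 1 0 2 (by decide) (by decide) (by decide) (by omega)
        | exact C.X 2 3 1 (by decide) (by decide) (by decide) (by omega)
        | exact C.X 3 2 0 (by decide) (by decide) (by decide) (by omega)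
  · clear exx exy
    rcases p0 with p0 | p0 <;>
      rcases p1 with p1 | p1 <;>
      rcases q1 with q1 | q1
    all_goals
      first
        | exact C.E 0 1 2 3 (by decide) (by decide) (by decide) (by decide) (by decide) (by decide) (by omega)
  · clear exx exy
    rcases p0 with p0 | p0 <;>
      rcases p1 with p1 | p1 <;>
      rcases q2 with q2 | q2 <;>
      rcases le_total (β 0 1) (β 0 2) with r | r
    all_goals
      first
        | exact C.Kb 0 3 1 2 (by decide) (by decide) (by decide) (by decide) (by decide) (by decide) (by omega)
        | exact C.Kb 0 3 2 1 (by decide) (by decide) (by decide) (by decide) (by decide) (by decide) (by omega)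
        | exact C.Kb 1 2 0 3 (by decide) (by decide) (by decide) (by decide) (by decide) (by decide) (by omega)
        | exact C.Kb 1 2 3 0 (by decide) (by decide) (by decide) (by decide) (by decide) (by decide) (by omega)
        | exact C.Kb 2 1 0 3 (by decide) (by decide) (by decide) (by decide) (by decide) (by decide) (by omega)
        | exact C.Kb 2 1 3 0 (by decide) (by decide) (by decide) (by decide) (by decide) (by decide) (by omega)
        | exact C.Kb 3 0 1 2 (by decide) (by decide) (by decide) (by decide) (by decide) (by decide) (by omega)
        | exact C.Kb 3 0 2 1 (by decide) (by decide) (by decide) (by decide) (by decide) (by decide) (by omega)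
  · clear exx p0 p1 p2
    omega
  · clear exx exy
    rcases p0 with p0 | p0 <;>
      rcases q0 with q0 | q0 <;>
      rcases q1 with q1 | q1 <;>
      rcases p2 with p2 | p2 <;>
      rcases q2 with q2 | q2
    all_goals
      first
        | exact C.T 0 2 1 (by decide) (by decide) (by decide) (by omega)
        | exact C.T 1 3 0 (by decide) (by decide) (by decide) (by omega)
  · clear exx exy
    rcases p0 with p0 | p0 <;>
      rcases q0 with q0 | q0 <;>
      rcases q1 with q1 | q1 <;>
      rcases p2 with p2 | p2
    all_goals
      first
        | exact C.X 0 3 2 (by decide) (by decide) (by decide) (by omega)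
        | exact C.X 1 2 3 (by decide) (by decide) (by decide) (by omega)
        | exact C.X 2 1 0 (by decide) (by decide) (by decide) (by omega)
        | exact C.X 3 0 1 (by decide) (by decide) (by decide) (by omega)
  · clear exx exy
    rcases p0 with p0 | p0 <;>
      rcases q0 with q0 | q0 <;>
      rcases p2 with p2 | p2 <;>
      rcases q2 with q2 | q2
    all_goals
      first
        | exact C.E 0 1 3 2 (by decide) (by decide) (by decide) (by decide) (by decide) (by decide) (by omega)
  · clear exx exy
    rcases p0 with p0 | p0 <;>
      rcases q0 with q0 | q0 <;>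
      rcases p2 with p2 | p2
    all_goals
      first
        | exact C.E 0 3 1 2 (by decide) (by decide) (by decide) (by decide) (by decide) (by decide) (by omega)
  · clear exx exy
    rcases p0 with p0 | p0 <;>
      rcases q1 with q1 | q1 <;>
      rcases p2 with p2 | p2 <;>
      rcases q2 with q2 | q2
    all_goals
      first
        | exact C.X 0 1 2 (by decide) (by decide) (by decide) (by omega)
        | exact C.X 1 0 3 (by decide) (by decide) (by decide) (by omega)
        | exact C.X 2 3 0 (by decide) (by decide) (by decide) (by omega)
        | exact C.X 3 2 1 (by decide) (by decide) (by decide) (by omega)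
  · clear exx exy
    rcases p0 with p0 | p0 <;>
      rcases q1 with q1 | q1 <;>
      rcases p2 with p2 | p2 <;>
      rcases le_total (β 0 1) (β 0 3) with r | r
    all_goals
      first
        | exact C.Kb 0 2 1 3 (by decide) (by decide) (by decide) (by decide) (by decide) (by decide) (by omega)
        | exact C.Kb 0 2 3 1 (by decide) (by decide) (by decide) (by decide) (by decide) (by decide) (by omega)
        | exact C.Kb 1 3 0 2 (by decide) (by decide) (by decide) (by decide) (by decide) (by decide) (by omega)
        | exact C.Kb 1 3 2 0 (by decide) (by decide) (by decide) (by decide) (by decide) (by decide) (by omega)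
        | exact C.Kb 2 0 1 3 (by decide) (by decide) (by decide) (by decide) (by decide) (by decide) (by omega)
        | exact C.Kb 2 0 3 1 (by decide) (by decide) (by decide) (by decide) (by decide) (by decide) (by omega)
        | exact C.Kb 3 1 0 2 (by decide) (by decide) (by decide) (by decide) (by decide) (by decide) (by omega)
        | exact C.Kb 3 1 2 0 (by decide) (by decide) (by decide) (by decide) (by decide) (by decide) (by omega)
  · clear exx exy
    rcases p0 with p0 | p0 <;>
      rcases p2 with p2 | p2 <;>
      rcases q2 with q2 | q2
    all_goals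
      first
        | exact C.E 0 1 3 2 (by decide) (by decide) (by decide) (by decide) (by decide) (by decide) (by omega)
  · clear exx p0 p1 p2
    omega
  · clear exx exy
    rcases p0 with p0 | p0 <;>
      rcases q0 with q0 | q0 <;>
      rcases q1 with q1 | q1 <;>
      rcases q2 with q2 | q2 <;>
      rcases le_total (α 0 2) (α 0 3) with r | r
    all_goals
      first
        | exact C.Ka 0 1 2 3 (by decide) (by decide) (by decide) (by decide) (by decide) (by decide) (by omega)
        | exact C.Ka 0 1 3 2 (by decide) (by decide) (by decide) (by decide) (by decide) (by decide) (by omega)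
        | exact C.Ka 1 0 2 3 (by decide) (by decide) (by decide) (by decide) (by decide) (by decide) (by omega)
        | exact C.Ka 1 0 3 2 (by decide) (by decide) (by decide) (by decide) (by decide) (by decide) (by omega)
        | exact C.Ka 2 3 0 1 (by decide) (by decide) (by decide) (by decide) (by decide) (by decide) (by omega)
        | exact C.Ka 2 3 1 0 (by decide) (by decide) (by decide) (by decide) (by decide) (by decide) (by omega)
        | exact C.Ka 3 2 0 1 (by decide) (by decide) (by decide) (by decide) (by decide) (by decide) (by omega)
        | exact C.Ka 3 2 1 0 (by decide) (by decide) (by decide) (by decide) (by decide) (by decide) (by omega)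
  · clear exx exy
    rcases p0 with p0 | p0 <;>
      rcases q0 with q0 | q0 <;>
      rcases q1 with q1 | q1
    all_goals
      first
        | exact C.E 0 2 1 3 (by decide) (by decide) (by decide) (by decide) (by decide) (by decide) (by omega)
  · clear exx exy
    rcases p0 with p0 | p0 <;>
      rcases q0 with q0 | q0 <;>
      rcases q2 with q2 | q2
    all_goals
      first
        | exact C.E 0 3 1 2 (by decide) (by decide) (by decide) (by decide) (by decide) (by decide) (by omega)
  · clear exx exy
    rcases p0 with p0 | p0 <;>
      rcases q0 with q0 | q0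
    all_goals
      first
        | exact C.E 0 3 1 2 (by decide) (by decide) (by decide) (by decide) (by decide) (by decide) (by omega)
  · clear exx exy
    rcases p0 with p0 | p0 <;>
      rcases q1 with q1 | q1 <;>
      rcases q2 with q2 | q2 <;>
      rcases le_total (α 0 2) (α 0 3) with r | r
    all_goals
      first
        | exact C.Ka 0 1 2 3 (by decide) (by decide) (by decide) (by decide) (by decide) (by decide) (by omega)
        | exact C.Ka 0 1 3 2 (by decide) (by decide) (by decide) (by decide) (by decide) (by decide) (by omega)
        | exact C.Ka 1 0 2 3 (by decide) (by decide) (by decide) (by decide) (by decide) (by decide) (by omega)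
        | exact C.Ka 1 0 3 2 (by decide) (by decide) (by decide) (by decide) (by decide) (by decide) (by omega)
        | exact C.Ka 2 3 0 1 (by decide) (by decide) (by decide) (by decide) (by decide) (by decide) (by omega)
        | exact C.Ka 2 3 1 0 (by decide) (by decide) (by decide) (by decide) (by decide) (by decide) (by omega)
        | exact C.Ka 3 2 0 1 (by decide) (by decide) (by decide) (by decide) (by decide) (by decide) (by omega)
        | exact C.Ka 3 2 1 0 (by decide) (by decide) (by decide) (by decide) (by decide) (by decide) (by omega)
  · clear exx exy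
    rcases p0 with p0 | p0 <;>
      rcases q1 with q1 | q1 <;>
      rcases le_or_gt (α 0 3) (α 0 2) with r | r <;>
      rcases le_or_gt (β 0 3) (β 0 1) with r' | r'
    all_goals
      first
        | exact C.E 0 1 2 3 (by decide) (by decide) (by decide) (by decide) (by decide) (by decide) (by omega)
        | exact C.EE 0 1 2 3 (by decide) (by decide) (by decide) (by decide) (by decide) (by decide) (by omega)
        | exact C.E 0 2 1 3 (by decide) (by decide) (by decide) (by decide) (by decide) (by decide) (by omega)
  · clear exx exy
    rcases p0 with p0 | p0 <;>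
      rcases q2 with q2 | q2 <;>
      rcases le_or_gt (α 0 2) (α 0 3) with r | r <;>
      rcases le_or_gt (β 0 2) (β 0 1) with r' | r'
    all_goals
      first
        | exact C.E 0 1 3 2 (by decide) (by decide) (by decide) (by decide) (by decide) (by decide) (by omega)
        | exact C.EE 0 1 3 2 (by decide) (by decide) (by decide) (by decide) (by decide) (by decide) (by omega)
        | exact C.E 0 3 1 2 (by decide) (by decide) (by decide) (by decide) (by decide) (by decide) (by omega)
  · clear exx p0 p1 p2
    omega
  · clear exx exy
    rcases q0 with q0 | q0 <;>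
      rcases p1 with p1 | p1 <;>
      rcases q1 with q1 | q1 <;>
      rcases p2 with p2 | p2 <;>
      rcases q2 with q2 | q2
    all_goals
      first
        | exact C.T 0 1 2 (by decide) (by decide) (by decide) (by omega)
        | exact C.T 2 3 0 (by decide) (by decide) (by decide) (by omega)
  · clear exx exy
    rcases q0 with q0 | q0 <;>
      rcases p1 with p1 | p1 <;>
      rcases q1 with q1 | q1 <;>
      rcases p2 with p2 | p2
    all_goals
      first
        | exact C.X 0 3 1 (by decide) (by decide) (by decide) (by omega)
        | exact C.X 1 2 0 (by decide) (by decide) (by decide) (by omega)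
        | exact C.X 2 1 3 (by decide) (by decide) (by decide) (by omega)
        | exact C.X 3 0 2 (by decide) (by decide) (by decide) (by omega)
  · clear exx exy
    rcases q0 with q0 | q0 <;>
      rcases p1 with p1 | p1 <;>
      rcases p2 with p2 | p2 <;>
      rcases q2 with q2 | q2
    all_goals
      first
        | exact C.X 0 2 1 (by decide) (by decide) (by decide) (by omega)
        | exact C.X 1 3 0 (by decide) (by decide) (by decide) (by omega)
        | exact C.X 2 0 3 (by decide) (by decide) (by decide) (by omega)
        | exact C.X 3 1 2 (by decide) (by decide) (by decide) (by omega)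
  · clear exx exy
    rcases q0 with q0 | q0 <;>
      rcases p1 with p1 | p1 <;>
      rcases p2 with p2 | p2 <;>
      rcases le_total (β 0 2) (β 0 3) with r | r
    all_goals
      first
        | exact C.Kb 0 1 2 3 (by decide) (by decide) (by decide) (by decide) (by decide) (by decide) (by omega)
        | exact C.Kb 0 1 3 2 (by decide) (by decide) (by decide) (by decide) (by decide) (by decide) (by omega)
        | exact C.Kb 1 0 2 3 (by decide) (by decide) (by decide) (by decide) (by decide) (by decide) (by omega)
        | exact C.Kb 1 0 3 2 (by decide) (by decide) (by decide) (by decide) (by decide) (by decide) (by omega)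
        | exact C.Kb 2 3 0 1 (by decide) (by decide) (by decide) (by decide) (by decide) (by decide) (by omega)
        | exact C.Kb 2 3 1 0 (by decide) (by decide) (by decide) (by decide) (by decide) (by decide) (by omega)
        | exact C.Kb 3 2 0 1 (by decide) (by decide) (by decide) (by decide) (by decide) (by decide) (by omega)
        | exact C.Kb 3 2 1 0 (by decide) (by decide) (by decide) (by decide) (by decide) (by decide) (by omega)
  · clear exx exy
    rcases p1 with p1 | p1 <;>
      rcases q1 with q1 | q1 <;>
      rcases p2 with p2 | p2 <;>
      rcases q2 with q2 | q2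
    all_goals
      first
        | exact C.E 0 2 3 1 (by decide) (by decide) (by decide) (by decide) (by decide) (by decide) (by omega)
  · clear exx exy
    rcases p1 with p1 | p1 <;>
      rcases q1 with q1 | q1 <;>
      rcases p2 with p2 | p2
    all_goals
      first
        | exact C.E 0 3 2 1 (by decide) (by decide) (by decide) (by decide) (by decide) (by decide) (by omega)
  · clear exx exy
    rcases p1 with p1 | p1 <;>
      rcases p2 with p2 | p2 <;>
      rcases q2 with q2 | q2
    all_goals
      first
        | exact C.E 0 2 3 1 (by decide) (by decide) (by decide) (by decide) (by decide) (by decide) (by omega)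
  · clear exx p0 p1 p2
    omega
  · clear exx exy
    rcases q0 with q0 | q0 <;>
      rcases p1 with p1 | p1 <;>
      rcases q1 with q1 | q1 <;>
      rcases q2 with q2 | q2 <;>
      rcases le_total (α 0 1) (α 0 3) with r | r
    all_goals
      first
        | exact C.Ka 0 2 1 3 (by decide) (by decide) (by decide) (by decide) (by decide) (by decide) (by omega)
        | exact C.Ka 0 2 3 1 (by decide) (by decide) (by decide) (by decide) (by decide) (by decide) (by omega)
        | exact C.Ka 1 3 0 2 (by decide) (by decide) (by decide) (by decide) (by decide) (by decide) (by omega)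
        | exact C.Ka 1 3 2 0 (by decide) (by decide) (by decide) (by decide) (by decide) (by decide) (by omega)
        | exact C.Ka 2 0 1 3 (by decide) (by decide) (by decide) (by decide) (by decide) (by decide) (by omega)
        | exact C.Ka 2 0 3 1 (by decide) (by decide) (by decide) (by decide) (by decide) (by decide) (by omega)
        | exact C.Ka 3 1 0 2 (by decide) (by decide) (by decide) (by decide) (by decide) (by decide) (by omega)
        | exact C.Ka 3 1 2 0 (by decide) (by decide) (by decide) (by decide) (by decide) (by decide) (by omega)
  · clear exx exy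
    rcases q0 with q0 | q0 <;>
      rcases p1 with p1 | p1 <;>
      rcases q1 with q1 | q1
    all_goals
      first
        | exact C.E 0 1 2 3 (by decide) (by decide) (by decide) (by decide) (by decide) (by decide) (by omega)
  · clear exx exy
    rcases q0 with q0 | q0 <;>
      rcases p1 with p1 | p1 <;>
      rcases q2 with q2 | q2 <;>
      rcases le_total (α 0 1) (α 0 3) with r | r
    all_goals
      first
        | exact C.Ka 0 2 1 3 (by decide) (by decide) (by decide) (by decide) (by decide) (by decide) (by omega)
        | exact C.Ka 0 2 3 1 (by decide) (by decide) (by decide) (by decide) (by decide) (by decide) (by omega)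
        | exact C.Ka 1 3 0 2 (by decide) (by decide) (by decide) (by decide) (by decide) (by decide) (by omega)
        | exact C.Ka 1 3 2 0 (by decide) (by decide) (by decide) (by decide) (by decide) (by decide) (by omega)
        | exact C.Ka 2 0 1 3 (by decide) (by decide) (by decide) (by decide) (by decide) (by decide) (by omega)
        | exact C.Ka 2 0 3 1 (by decide) (by decide) (by decide) (by decide) (by decide) (by decide) (by omega)
        | exact C.Ka 3 1 0 2 (by decide) (by decide) (by decide) (by decide) (by decide) (by decide) (by omega)
        | exact C.Ka 3 1 2 0 (by decide) (by decide) (by decide) (by decide) (by decide) (by decide) (by omega)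
  · clear exx exy
    rcases q0 with q0 | q0 <;>
      rcases p1 with p1 | p1 <;>
      rcases le_or_gt (α 0 3) (α 0 1) with r | r <;>
      rcases le_or_gt (β 0 3) (β 0 2) with r' | r'
    all_goals
      first
        | exact C.E 0 1 2 3 (by decide) (by decide) (by decide) (by decide) (by decide) (by decide) (by omega)
        | exact C.E 0 2 1 3 (by decide) (by decide) (by decide) (by decide) (by decide) (by decide) (by omega)
        | exact C.EE 0 2 1 3 (by decide) (by decide) (by decide) (by decide) (by decide) (by decide) (by omega)
  · clear exx exy
    rcases p1 with p1 | p1 <;>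
      rcases q1 with q1 | q1 <;>
      rcases q2 with q2 | q2
    all_goals
      first
        | exact C.E 0 3 2 1 (by decide) (by decide) (by decide) (by decide) (by decide) (by decide) (by omega)
  · clear exx exy
    rcases p1 with p1 | p1 <;>
      rcases q1 with q1 | q1
    all_goals
      first
        | exact C.E 0 3 2 1 (by decide) (by decide) (by decide) (by decide) (by decide) (by decide) (by omega)
  · clear exx exy
    rcases p1 with p1 | p1 <;>
      rcases q2 with q2 | q2 <;>
      rcases le_or_gt (α 0 1) (α 0 3) with r | r <;>
      rcases le_or_gt (β 0 1) (β 0 2) with r' | r'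
    all_goals
      first
        | exact C.E 0 2 3 1 (by decide) (by decide) (by decide) (by decide) (by decide) (by decide) (by omega)
        | exact C.EE 0 2 3 1 (by decide) (by decide) (by decide) (by decide) (by decide) (by decide) (by omega)
        | exact C.E 0 3 2 1 (by decide) (by decide) (by decide) (by decide) (by decide) (by decide) (by omega)
  · clear exx p0 p1 p2
    omega
  · clear exx exy
    rcases q0 with q0 | q0 <;>
      rcases q1 with q1 | q1 <;>
      rcases p2 with p2 | p2 <;>
      rcases q2 with q2 | q2 <;>
      rcases le_total (α 0 1) (α 0 2) with r | r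
    all_goals
      first
        | exact C.Ka 0 3 1 2 (by decide) (by decide) (by decide) (by decide) (by decide) (by decide) (by omega)
        | exact C.Ka 0 3 2 1 (by decide) (by decide) (by decide) (by decide) (by decide) (by decide) (by omega)
        | exact C.Ka 1 2 0 3 (by decide) (by decide) (by decide) (by decide) (by decide) (by decide) (by omega)
        | exact C.Ka 1 2 3 0 (by decide) (by decide) (by decide) (by decide) (by decide) (by decide) (by omega)
        | exact C.Ka 2 1 0 3 (by decide) (by decide) (by decide) (by decide) (by decide) (by decide) (by omega)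
        | exact C.Ka 2 1 3 0 (by decide) (by decide) (by decide) (by decide) (by decide) (by decide) (by omega)
        | exact C.Ka 3 0 1 2 (by decide) (by decide) (by decide) (by decide) (by decide) (by decide) (by omega)
        | exact C.Ka 3 0 2 1 (by decide) (by decide) (by decide) (by decide) (by decide) (by decide) (by omega)
  · clear exx exy
    rcases q0 with q0 | q0 <;>
      rcases q1 with q1 | q1 <;>
      rcases p2 with p2 | p2 <;>
      rcases le_total (α 0 1) (α 0 2) with r | r
    all_goals
      first
        | exact C.Ka 0 3 1 2 (by decide) (by decide) (by decide) (by decide) (by decide) (by decide) (by omega)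
        | exact C.Ka 0 3 2 1 (by decide) (by decide) (by decide) (by decide) (by decide) (by decide) (by omega)
        | exact C.Ka 1 2 0 3 (by decide) (by decide) (by decide) (by decide) (by decide) (by decide) (by omega)
        | exact C.Ka 1 2 3 0 (by decide) (by decide) (by decide) (by decide) (by decide) (by decide) (by omega)
        | exact C.Ka 2 1 0 3 (by decide) (by decide) (by decide) (by decide) (by decide) (by decide) (by omega)
        | exact C.Ka 2 1 3 0 (by decide) (by decide) (by decide) (by decide) (by decide) (by decide) (by omega)
        | exact C.Ka 3 0 1 2 (by decide) (by decide) (by decide) (by decide) (by decide) (by decide) (by omega)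
        | exact C.Ka 3 0 2 1 (by decide) (by decide) (by decide) (by decide) (by decide) (by decide) (by omega)
  · clear exx exy
    rcases q0 with q0 | q0 <;>
      rcases p2 with p2 | p2 <;>
      rcases q2 with q2 | q2
    all_goals
      first
        | exact C.E 0 1 3 2 (by decide) (by decide) (by decide) (by decide) (by decide) (by decide) (by omega)
  · clear exx exy
    rcases q0 with q0 | q0 <;>
      rcases p2 with p2 | p2 <;>
      rcases le_or_gt (α 0 2) (α 0 1) with r | r <;>
      rcases le_or_gt (β 0 2) (β 0 3) with r' | r'
    all_goals
      first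
        | exact C.E 0 1 3 2 (by decide) (by decide) (by decide) (by decide) (by decide) (by decide) (by omega)
        | exact C.E 0 3 1 2 (by decide) (by decide) (by decide) (by decide) (by decide) (by decide) (by omega)
        | exact C.EE 0 3 1 2 (by decide) (by decide) (by decide) (by decide) (by decide) (by decide) (by omega)
  · clear exx exy
    rcases q1 with q1 | q1 <;>
      rcases p2 with p2 | p2 <;>
      rcases q2 with q2 | q2
    all_goals
      first
        | exact C.E 0 2 3 1 (by decide) (by decide) (by decide) (by decide) (by decide) (by decide) (by omega)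
  · clear exx exy
    rcases q1 with q1 | q1 <;>
      rcases p2 with p2 | p2 <;>
      rcases le_or_gt (α 0 1) (α 0 2) with r | r <;>
      rcases le_or_gt (β 0 1) (β 0 3) with r' | r'
    all_goals
      first
        | exact C.E 0 2 3 1 (by decide) (by decide) (by decide) (by decide) (by decide) (by decide) (by omega)
        | exact C.E 0 3 2 1 (by decide) (by decide) (by decide) (by decide) (by decide) (by decide) (by omega)
        | exact C.EE 0 3 2 1 (by decide) (by decide) (by decide) (by decide) (by decide) (by decide) (by omega)
  · clear exx exy
    rcases p2 with p2 | p2 <;>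
      rcases q2 with q2 | q2
    all_goals
      first
        | exact C.E 0 2 3 1 (by decide) (by decide) (by decide) (by decide) (by decide) (by decide) (by omega)
  · clear exx p0 p1 p2
    omega
  · clear exy q0 q1 q2
    omega
  · clear exy q0 q1 q2
    omega
  · clear exy q0 q1 q2
    omega
  · clear exy q0 q1 q2
    omega
  · clear exy q0 q1 q2
    omega
  · clear exy q0 q1 q2
    omega
  · clear exy q0 q1 q2
    omega
  · clear exy q0 q1 q2
    omega

end Pool.Agent.P.MP_7eb8f3_nt
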