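import Mathlib
import Pool.Agent.P.MP_7eb8f3_nt.Basic
import Pool.Agent.P.MP_7eb8f3_nt.Comb

set_option autoImplicit false

namespace Pool.Agent.P.MP_7eb8f3_nt

lemma pp_dvd {p q : ℤ} {a b c d : ℕ} (h1 : a ≤ c) (h2 : b ≤ d) : p ^ a * q ^ b ∣ p ^ c * q ^ d :=
  mul_dvd_mul (pow_dvd_pow p h1) (pow_dvd_pow q h2)

lemma lemK {p q : ℤ} (hq1 : 1 < q) (a : Fin 4 → ℤ) (α β : Fin 4 → Fin 4 → ℕ)
    (hpos : ∀ i, 0 < a i) (hinj : ∀ i j, i ≠ j → a i ≠ a j)
    (h : ∀ i j, i ≠ j → a i * a j + 1 = p ^ α i j * q ^ β i j)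
    (i j k l : Fin 4) (hij : i ≠ j) (hik : i ≠ k) (hil : i ≠ l) (hjk : j ≠ k) (hjl : j ≠ l)
    (hkl : k ≠ l) :
    ¬ (α i l ≤ α i k ∧ β i l = β i k ∧ α j l = α i k ∧ β i l ≤ β j l ∧ α j k = α i l ∧
      β i l ≤ β j k ∧ α i k ≤ α i j ∧ α i k ≤ α k l) := by
  rintro ⟨h1, h2, h3, h4, h5, h6, h7, h8⟩
  obtain ⟨e, he⟩ := Nat.exists_eq_add_of_le h1
  obtain ⟨m, hm⟩ := Nat.exists_eq_add_of_le h4
  obtain ⟨n, hn⟩ := Nat.exists_eq_add_of_le h6
  refine keyK (E := p ^ e) (q := q) (m := m) (n := n) hq1 (hpos i) (hpos j) (hpos k) (hpos l)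
    (hinj i j hij) (hinj k l hkl) (hinj i l hil) ?_ ?_ ?_ ?_ ?_
  · rw [h i k hik, h i l hil, he, ← h2]; ring
  · rw [h j l hjl, h i l hil, h3, he, hm]; ring
  · rw [h j k hjk, h i l hil, h5, hn]; ring
  · rw [h i j hij]; exact Dvd.dvd.mul_right (pow_dvd_pow p (by omega)) _
  · rw [h k l hkl]; exact Dvd.dvd.mul_right (pow_dvd_pow p (by omega)) _

lemma lemV {p q : ℤ} (hp : Prime p) (hpq : ¬ p ∣ q) (a : Fin 4 → ℤ) (α β : Fin 4 → Fin 4 → ℕ)
    (h : ∀ i j, i ≠ j → a i * a j + 1 = p ^ α i j * q ^ β i j)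
    (i j k l : Fin 4) (hij : i ≠ j) (hik : i ≠ k) (hjl : j ≠ l) (hkl : k ≠ l) :
    ¬ (α i j < α k l ∧ α i j < α i k ∧ α i j < α j l) := by
  rintro ⟨h1, h2, h3⟩
  exact val hp hpq (h i j hij) (h k l hkl) (h i k hik) (h j l hjl) (by ring) h1 h2 h3

theorem no_int {p q : ℤ} (hp : Prime p) (hq : Prime q) (hp1 : 1 < p) (hq1 : 1 < q)
    (hpq : ¬ p ∣ q) (hqp : ¬ q ∣ p) (a : Fin 4 → ℤ) (α β : Fin 4 → Fin 4 → ℕ)
    (hpos : ∀ i, 0 < a i) (hinj : ∀ i j, i ≠ j → a i ≠ a j)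
    (sa : ∀ i j, α i j = α j i) (sb : ∀ i j, β i j = β j i)
    (h : ∀ i j, i ≠ j → a i * a j + 1 = p ^ α i j * q ^ β i j) : False := by
  have h' : ∀ i j, i ≠ j → a i * a j + 1 = q ^ β i j * p ^ α i j := fun i j hij => by
    rw [h i j hij, mul_comm]
  refine Con.false (α := α) (β := β) ⟨sa, sb, ?_, ?_, ?_, ?_, ?_, ?_, ?_, ?_⟩
  · rintro i j k hij hik hjk ⟨h1, h2, h3, h4⟩
    refine tri (c := a k) (hpos i) (hpos j) (hinj i j hij) ?_ ?_
    · rw [h i j hij, h i k hik]; exact pp_dvd h1 h2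
    · rw [h i j hij, h j k hjk]; exact pp_dvd h3 h4
  · rintro i j l hij hil hjl ⟨h1, h2, h3, h4⟩
    refine cross (hpos i) (hpos j) (hpos l) (hinj i j hij) (hinj i l hil) ?_ ?_
    · rw [h i l hil, h j l hjl]; exact pp_dvd h1 h2
    · rw [h i j hij, h j l hjl]; exact pp_dvd h3 h4
  · intro i j k l hij hik _ _ hjl hkl
    exact lemV hp hpq a α β h i j k l hij hik hjl hkl
  · intro i j k l hij hik _ _ hjl hkl
    exact lemV hq hqp a β α h' i j k l hij hik hjl hkl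
  · exact lemK hq1 a α β hpos hinj h
  · exact lemK hp1 a β α hpos hinj h'
  · rintro i j k l hij hik hil hjk hjl hkl ⟨h1, h2, h3, h4⟩
    refine eqpair (hpos i) (hpos j) (hpos k) (hpos l) (hinj k l hkl) ?_ ?_
    · rw [h i l hil, h j k hjk, h1, h2]
    · rw [h i l hil, h i k hik]; exact pp_dvd h3 h4
  · rintro i j k l hij hik hil hjk hjl hkl ⟨h1, h2, h3, h4, h5, h6, h7, h8⟩
    have e : a j * a k + 1 = a i * a l + 1 := by rw [h i l hil, h j k hjk, h1, h2]
    have d1 : p ∣ 2 := val2 hp hpq (h i l hil) (h i j hij) (h k l hkl)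
      (by linear_combination (a i * a l) * e) h3 h5 h6
    have d2 : q ∣ 2 := val2 hq hqp (h' i l hil) (h' i k hik) (h' j l hjl)
      (by linear_combination (a i * a l) * e) h4 h7 h8
    have e1 : p = 2 := by
      have := Int.le_of_dvd (by norm_num) d1
      omega
    have e2 : q = 2 := by
      have := Int.le_of_dvd (by norm_num) d2
      omega
    exact hpq (by rw [e1, e2])

lemma two_prime_form {p q n : ℕ} (hp : p.Prime) (hq : q.Prime) (hpq : p ≠ q) (hn : n ≠ 0)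
    (h : ∀ r : ℕ, r.Prime → r ∣ n → r = p ∨ r = q) :
    n = p ^ n.factorization p * q ^ n.factorization q := by
  apply Nat.eq_of_factorization_eq hn (mul_ne_zero (pow_ne_zero _ hp.ne_zero) (pow_ne_zero _ hq.ne_zero))
  intro r
  rw [Nat.factorization_mul (pow_ne_zero _ hp.ne_zero) (pow_ne_zero _ hq.ne_zero),
    hp.factorization_pow, hq.factorization_pow]
  simp only [Finsupp.coe_add, Pi.add_apply, Finsupp.single_apply]
  by_cases h1 : p = r
  · subst h1
    simp [hpq.symm]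
  · by_cases h2 : q = r
    · subst h2
      simp [hpq]
    · simp only [h1, h2, if_false, add_zero]
      by_contra hne
      have hmem : r ∈ n.factorization.support := Finsupp.mem_support_iff.mpr hne
      rw [Nat.support_factorization, Nat.mem_primeFactors] at hmem
      rcases h r hmem.1 hmem.2.1 with h3 | h3
      · exact h1 h3.symm
      · exact h2 h3.symm

theorem no_nat_ne {p q : ℕ} (hp : p.Prime) (hq : q.Prime) (hpq : p ≠ q) (a : Fin 4 → ℕ)
    (hinj : Function.Injective a) (hpos : ∀ i, 0 < a i)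
    (h : ∀ i j, i ≠ j → ∀ r : ℕ, r.Prime → r ∣ a i * a j + 1 → r = p ∨ r = q) : False := by
  refine no_int (p := p) (q := q) (Nat.prime_iff_prime_int.mp hp) (Nat.prime_iff_prime_int.mp hq)
    (by exact_mod_cast hp.one_lt) (by exact_mod_cast hq.one_lt) ?_ ?_ (fun i => (a i : ℤ))
    (fun i j => (a i * a j + 1).factorization p) (fun i j => (a i * a j + 1).factorization q)
    (fun i => by exact_mod_cast hpos i) ?_ ?_ ?_ ?_
  · rw [Int.natCast_dvd_natCast, Nat.prime_dvd_prime_iff_eq hp hq]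
    exact hpq
  · rw [Int.natCast_dvd_natCast, Nat.prime_dvd_prime_iff_eq hq hp]
    exact hpq.symm
  · intro i j hij heq
    exact hij (hinj (by exact_mod_cast heq))
  · intro i j; rw [mul_comm]
  · intro i j; rw [mul_comm]
  · intro i j hij
    have := two_prime_form hp hq hpq (Nat.succ_ne_zero _) (h i j hij)
    exact_mod_cast this

theorem no_nat {p q : ℕ} (hp : p.Prime) (hq : q.Prime) (a : Fin 4 → ℕ)
    (hinj : Function.Injective a) (hpos : ∀ i, 0 < a i)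
    (h : ∀ i j, i ≠ j → ∀ r : ℕ, r.Prime → r ∣ a i * a j + 1 → r = p ∨ r = q) : False := by
  by_cases hpq : p = q
  · subst hpq
    obtain ⟨q', hq1, hq2⟩ := Nat.exists_infinite_primes (p + 1)
    refine no_nat_ne hp hq2 (by omega) a hinj hpos ?_
    intro i j hij r hr hd
    left
    rcases h i j hij r hr hd with h1 | h1 <;> exact h1
  · exact no_nat_ne hp hq hpq a hinj hpos h

end Pool.Agent.P.MP_7eb8f3_nt
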